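import Pool.Agent.H594R2.Mey2.Graph
import Pool.Agent.V11214.CP.Multi

/-!
# The multi-layer cop number of graphs with `n + o(n)` edges

Static cops on a vertex cover `T` of the edges of `G` outside of some layer `C j` confine the robber
to this layer, where `81 √n (log n + 1)` cops catch him (starting files, for Meyniel's conjecture).
Since `C j` is connected and spanning, at most `e - n + 1` edges are outside of it. So
`c^max_τ(G) ≤ e - n + 1 + 81 √n (log n + 1)` for all connected graphs and all `τ ≥ 1`.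
-/

set_option autoImplicit false

namespace Pool.Agent.Results.MP_6ecee4_co.FewEdgesOutsideALayer

open N6ef48c04 Pool.Agent.V11214.CP

/-- The layers `C i` are connected and their union is `G`. -/
def Admissible {V : Type} {τ : ℕ} (C : Fin τ → SimpleGraph V) (G : SimpleGraph V) : Prop :=
  (∀ i, (C i).Connected) ∧ ⨆ i, C i = G

/-- The extremal multi-layer cop number `c^max_τ(G)`: the maximum of the multi-layer cop numbers of
all admissible families of `τ` cop layers, the robber layer being `G`. -/
noncomputable def cMax {V : Type} (τ : ℕ) (G : SimpleGraph V) : ℕ :=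
  sSup {m | ∃ C : Fin τ → SimpleGraph V, Admissible C G ∧ m = multiCopNumber C G}

/-- **Theorem.** Let `G` be a connected graph with `n` vertices and `e` edges.
(1) Let `C` be connected layers with union `G`, and let `T` be a set of vertices such that all edges
of `G` without an end in `T` are in one of the layers, `C j`. Then the multi-layer cop number is at
most `|T| + 81 √n (log n + 1)`.
(2) `c^max_τ(G) ≤ e - n + 1 + 81 √n (log n + 1)` for all `τ ≥ 1`. -/
theorem result : ∀ (V : Type) [Fintype V] (G : SimpleGraph V), G.Connected → ∀ τ : ℕ, 1 ≤ τ →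
    (∀ C : Fin τ → SimpleGraph V, Admissible C G → ∀ (j : Fin τ) (T : Finset V),
      (∀ u v, G.Adj u v → u ∉ T → v ∉ T → (C j).Adj u v) →
      (multiCopNumber C G : ℝ) ≤
        T.card + 81 * √(Fintype.card V) * (Real.log (Fintype.card V) + 1)) ∧
    (cMax τ G : ℝ) ≤ (Nat.card G.edgeSet : ℝ) - Fintype.card V + 1 +
      81 * √(Fintype.card V) * (Real.log (Fintype.card V) + 1) := by
  classical
  intro V _ G hG τ hτ
  have h1 : ∀ C : Fin τ → SimpleGraph V, Admissible C G → ∀ (j : Fin τ) (T : Finset V),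
      (∀ u v, G.Adj u v → u ∉ T → v ∉ T → (C j).Adj u v) →
      (multiCopNumber C G : ℝ) ≤
        T.card + 81 * √(Fintype.card V) * (Real.log (Fintype.card V) + 1) := by
    intro C hC j T hT
    have h2 := multiCopNumber_le_cover j (hC.1 j) T hT
    have h3 := Pool.Agent.H594R2.Mey2.graph_bound (C j) (hC.1 j)
    have h4 : (multiCopNumber C G : ℝ) ≤ T.card + copNumber (C j) := by exact_mod_cast h2
    linarith
  refine ⟨h1, ?_⟩
  set B : ℝ := (Nat.card G.edgeSet : ℝ) - Fintype.card V + 1 +
    81 * √(Fintype.card V) * (Real.log (Fintype.card V) + 1) with hB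
  have h2 : ∀ C : Fin τ → SimpleGraph V, Admissible C G → (multiCopNumber C G : ℝ) ≤ B := by
    intro C hC
    have hle : C ⟨0, hτ⟩ ≤ G := hC.2 ▸ le_iSup C ⟨0, hτ⟩
    obtain ⟨T, hT, hT'⟩ := exists_cover (C := C) (R := G) ⟨0, hτ⟩ (hC.1 _) hle
    have h3 := h1 C hC ⟨0, hτ⟩ T hT'
    rw [Nat.card_eq_fintype_card (α := V)] at hT
    have h4 : (T.card : ℝ) + Fintype.card V ≤ Nat.card G.edgeSet + 1 := by exact_mod_cast hT
    linarith
  have hadm : Admissible (fun _ : Fin τ => G) G := by
    have : Nonempty (Fin τ) := ⟨⟨0, hτ⟩⟩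
    exact ⟨fun _ => hG, iSup_const⟩
  have hB0 : 0 ≤ B := (Nat.cast_nonneg _).trans (h2 _ hadm)
  have h3 : cMax τ G ≤ ⌊B⌋₊ := by
    refine csSup_le ⟨_, _, hadm, rfl⟩ ?_
    rintro m ⟨C, hC, rfl⟩
    exact Nat.le_floor (h2 C hC)
  have h4 : (cMax τ G : ℝ) ≤ (⌊B⌋₊ : ℝ) := by exact_mod_cast h3
  exact h4.trans (Nat.floor_le hB0)

end Pool.Agent.Results.MP_6ecee4_co.FewEdgesOutsideALayer
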